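import Pool.Agent.W128.VA.Stm2

/-!
# Project VA: no vacuum vectors in the images of the creation operators
-/

set_option autoImplicit false

namespace Pool.Agent.W392.VA.Hei2

open Pool.Agent.W128.VA

section ring

variable {R : Type*} [Ring R] [Algebra ℂ R]

theorem pow_comm (a b : R) (c : ℂ) (h : a * b = b * a + c • 1) (k : ℕ) :
    a ^ (k + 1) * b = b * a ^ (k + 1) + (((k : ℂ) + 1) * c) • a ^ k := by
  induction k with
  | zero => simp [h]
  | succ k ih =>
    rw [pow_succ' a (k + 1), mul_assoc, ih, mul_add, ← mul_assoc, h, add_mul, smul_mul_assoc,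
      one_mul, mul_smul_comm, ← pow_succ' a k, ← mul_assoc, add_assoc, ← add_smul]
    congr 2
    push_cast
    ring

/-- the projection, cut off -/
noncomputable def P (a b : R) (c : ℂ) (N : ℕ) : R :=
  ∑ k ∈ Finset.range (N + 1), ((-1) ^ k / ((k.factorial : ℂ) * c ^ k)) • (b ^ k * a ^ k)

theorem P_mul (a b : R) (c : ℂ) (hc : c ≠ 0) (h : a * b = b * a + c • 1) (N : ℕ) :
    P a b c N * b = ((-1) ^ N / ((N.factorial : ℂ) * c ^ N)) • (b ^ (N + 1) * a ^ N) := by
  induction N with
  | zero => simp [P]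
  | succ N ih =>
    have h1 : P a b c (N + 1) = P a b c N +
        ((-1) ^ (N + 1) / (((N + 1).factorial : ℂ) * c ^ (N + 1))) • (b ^ (N + 1) * a ^ (N + 1)) := by
      unfold P
      rw [Finset.sum_range_succ]
    rw [h1, add_mul, ih, smul_mul_assoc, mul_assoc, pow_comm a b c h, mul_add, ← mul_assoc,
      ← pow_succ, mul_smul_comm, smul_add, smul_smul]
    have h2 : ((-1 : ℂ) ^ (N + 1) / (((N + 1).factorial : ℂ) * c ^ (N + 1))) * (((N : ℂ) + 1) * c) =
        -((-1) ^ N / ((N.factorial : ℂ) * c ^ N)) := by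
      have e1 : ((N.factorial : ℕ) : ℂ) ≠ 0 := by exact_mod_cast N.factorial_ne_zero
      have e2 : (N : ℂ) + 1 ≠ 0 := by exact_mod_cast N.succ_ne_zero
      rw [Nat.factorial_succ]
      push_cast
      field_simp
      ring
    rw [h2, neg_smul]
    abel

theorem P_comm (a b d : R) (c : ℂ) (N : ℕ) (ha : Commute a d) (hb : Commute b d) :
    Commute (P a b c N) d := by
  unfold P
  refine Commute.sum_left _ _ _ fun k _ => ?_
  exact ((hb.pow_left k).mul_left (ha.pow_left k)).smul_left _

end ring

theorem main.{u} : S_HEI2.{u} := by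
  intro M _ _ gr h e f S w hw hmem
  -- local nilpotency
  have hnil : ∀ m : ℤ, 0 < m → ∀ v : M, ∃ N : ℕ, (h m ^ N) v = 0 := by
    intro m hm v
    let U : Submodule ℂ M :=
      { carrier := {v | ∃ N : ℕ, (h m ^ N) v = 0}
        zero_mem' := ⟨0, map_zero _⟩
        add_mem' := by
          rintro a b ⟨N, hN⟩ ⟨N', hN'⟩
          refine ⟨N + N', ?_⟩
          have h1 : (h m ^ (N + N')) a = 0 := by
            rw [Nat.add_comm, pow_add, Module.End.mul_apply, hN, map_zero]
          have h2 : (h m ^ (N + N')) b = 0 := by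
            rw [pow_add, Module.End.mul_apply, hN', map_zero]
          rw [map_add, h1, h2, add_zero]
        smul_mem' := by
          rintro c a ⟨N, hN⟩
          exact ⟨N, by rw [map_smul, hN, smul_zero]⟩ }
    have hU : ∀ d : ℤ, gr d ≤ U := by
      intro d v hv
      have h1 : ∀ k : ℕ, (h m ^ k) v ∈ gr (d - k * m) := by
        intro k
        induction k with
        | zero => simpa using hv
        | succ k ih =>
          rw [pow_succ', Module.End.mul_apply]
          have := S.dh m _ _ ih
          have e1 : d - (k : ℤ) * m - m = d - ((k + 1 : ℕ) : ℤ) * m := by push_cast; ring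
          rwa [e1] at this
      refine ⟨(d.toNat + 1), ?_⟩
      have h2 := h1 (d.toNat + 1)
      rw [S.gr_neg] at h2
      · exact (Submodule.mem_bot ℂ).1 h2
      · have h3 : d ≤ (d.toNat : ℤ) := Int.self_le_toNat d
        have h4 : (0 : ℤ) ≤ (d.toNat : ℤ) := Int.natCast_nonneg _
        push_cast
        nlinarith
    have htop : (⊤ : Submodule ℂ M) ≤ U := by
      rw [← S.gr_int.submodule_iSup_eq_top]
      exact iSup_le hU
    exact htop (Submodule.mem_top (x := v))
  -- the commutation relations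
  have hcomm : ∀ m n : ℤ, m + n ≠ 0 → Commute (h m) (h n) := by
    intro m n hmn
    refine LinearMap.ext fun v => ?_
    have := S.hh m n v
    rw [if_neg hmn, zero_smul] at this
    exact sub_eq_zero.1 this
  have hmm : ∀ m : ℤ, h m * h (-m) = h (-m) * h m + (2 * (m : ℂ)) • 1 := by
    intro m
    refine LinearMap.ext fun v => ?_
    have := S.hh m (-m) v
    rw [if_pos (by ring)] at this
    show h m (h (-m) v) = h (-m) (h m v) + (2 * (m : ℂ)) • v
    rw [← this]
    abel
  -- induction
  rw [Submodule.mem_iSup_iff_exists_finset] at hmem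
  obtain ⟨s, hs⟩ := hmem
  clear S
  revert w
  induction s using Finset.induction_on with
  | empty =>
    intro w _ hs
    simpa using hs
  | insert m s hms ih =>
    intro w hw hs
    refine ih w hw ?_
    rw [Finset.iSup_insert, Submodule.mem_sup] at hs
    obtain ⟨x, ⟨v, rfl⟩, y, hy, hxy⟩ := hs
    obtain ⟨N, hN⟩ := hnil m m.2 v
    have hc : 2 * ((m : ℤ) : ℂ) ≠ 0 := by
      have : ((m : ℤ) : ℂ) ≠ 0 := by exact_mod_cast m.2.ne'
      exact mul_ne_zero two_ne_zero this
    have h1 : P (h m) (h (-m)) (2 * ((m : ℤ) : ℂ)) N w = w := by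
      unfold P
      rw [Finset.sum_range_succ', LinearMap.add_apply, LinearMap.sum_apply,
        Finset.sum_eq_zero fun k _ => ?_]
      · simp
      · rw [LinearMap.smul_apply, Module.End.mul_apply, pow_succ (h m) k, Module.End.mul_apply,
          hw m m.2, map_zero, map_zero, smul_zero]
    have h2 : P (h m) (h (-m)) (2 * ((m : ℤ) : ℂ)) N (h (-m) v) = 0 := by
      have h3 := P_mul (h m) (h (-m)) (2 * ((m : ℤ) : ℂ)) hc (hmm m) N
      have h4 := LinearMap.congr_fun h3 v
      rw [Module.End.mul_apply, LinearMap.smul_apply, Module.End.mul_apply, hN, map_zero,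
        smul_zero] at h4
      exact h4
    have h3 : P (h m) (h (-m)) (2 * ((m : ℤ) : ℂ)) N y = w := by
      rw [← hxy, map_add, h2, zero_add] at h1
      rw [h1, hxy]
    have h4 : Submodule.map (P (h m) (h (-m)) (2 * ((m : ℤ) : ℂ)) N)
        (⨆ i ∈ s, LinearMap.range (h (-(i : ℤ)))) ≤ ⨆ i ∈ s, LinearMap.range (h (-(i : ℤ))) := by
      simp only [Submodule.map_iSup]
      refine iSup_le fun i => iSup_le fun hi => ?_
      refine le_trans ?_ (le_iSup₂ (f := fun i (_ : i ∈ s) => LinearMap.range (h (-(i : ℤ)))) i hi)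
      rintro _ ⟨_, ⟨u, rfl⟩, rfl⟩
      have him : (i : ℤ) ≠ m := by
        intro h5
        apply hms
        have : i = m := Subtype.ext h5
        rwa [← this]
      have hi0 := i.2
      have hm0 := m.2
      have h5 := P_comm (h m) (h (-m)) (h (-(i : ℤ))) (2 * ((m : ℤ) : ℂ)) N
        (hcomm _ _ (by omega)) (hcomm _ _ (by omega))
      have h6 := LinearMap.congr_fun h5.eq u
      exact ⟨P (h m) (h (-m)) (2 * ((m : ℤ) : ℂ)) N u, h6.symm⟩
    rw [← h3]
    exact h4 ⟨y, hy, rfl⟩

end Pool.Agent.W392.VA.Hei2
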